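import Mathlib

/-!
# Flattened Stirling permutations with exactly three runs

Write `N = n - 1`, `A = ∑_{k=1}^N C(N,k) ∑_{j=2}^{N-k} C(N-k,j)`, `B` for the same sum with `2 ≤ k`, and
`C = ∑_{k=3}^N (2^{k-1} - 2) C(N,k)`. For every `n ≥ 1` the number of flattened Stirling permutations of
order `n` with exactly three runs is `2 A + 2 B + C`. The formula in the question is `2 A + B + C`; it
is correct exactly for `n ≤ 4`, as `B > 0` for `n ≥ 5`: for `n = 5` the number is `70`, not `64`.

Proof. The two copies of the largest letter are adjacent. Inserting them in a gap of a word of order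
`n - 1` keeps the number of runs if the gap is at the end or before the first letter of a run, and
otherwise creates a run whose first letter is the letter after the gap. This gives recursions for the
numbers of words with two runs and with three runs, the latter with a statistic on the words with
two runs, the number of the places where a new run can be created.
-/

set_option autoImplicit false

namespace Pool.Agent.Results.MP_793dac_co.ThreeRuns

open Finset
open scoped Classical

/-- `w` is a Stirling permutation of order `n`: a word of length `2 n` with the letters `1, …, n`, each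
of them exactly twice, such that every letter between the two copies of a letter exceeds it. -/
def IsStirling (n : ℕ) (w : Fin (2 * n) → ℕ) : Prop :=
  (∀ i, 1 ≤ w i ∧ w i ≤ n) ∧
    (∀ v, 1 ≤ v → v ≤ n → (univ.filter fun i => w i = v).card = 2) ∧
    ∀ a b c, a < b → b < c → w a = w c → w a < w b

/-- a run of `w` starts at the place `i`: there is no letter before it, or a larger one -/
def RunStart {m : ℕ} (w : Fin m → ℕ) (i : Fin m) : Prop :=
  ∀ j : Fin m, j.val + 1 = i.val → w i < w j

/-- the leading values of the runs are weakly increasing -/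
def IsFlattened {m : ℕ} (w : Fin m → ℕ) : Prop :=
  ∀ i j, RunStart w i → RunStart w j → i < j → w i ≤ w j

/-- the number of flattened Stirling permutations of order `n` with exactly three runs -/
noncomputable def flatThree (n : ℕ) : ℕ :=
  Nat.card {w : Fin (2 * n) → ℕ //
    IsStirling n w ∧ IsFlattened w ∧ Nat.card {i // RunStart w i} = 3}

/-! ### Words as functions on `ℕ` -/

/-- insert two letters `m` in the gap before the place `g` -/
def ins (m g : ℕ) (w : ℕ → ℕ) : ℕ → ℕ :=
  fun i => if i < g then w i else if i < g + 2 then m else w (i - 2)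

/-- Stirling permutations as functions on `ℕ`, extended by zero -/
def St (n : ℕ) (f : ℕ → ℕ) : Prop :=
  (∀ i, 2 * n ≤ i → f i = 0) ∧ (∀ i, i < 2 * n → 1 ≤ f i ∧ f i ≤ n) ∧
    (∀ v, 1 ≤ v → v ≤ n → ∃ a b, a < b ∧ f a = v ∧ f b = v ∧ ∀ i, f i = v → i = a ∨ i = b) ∧
    ∀ a b c, a < b → b < c → c < 2 * n → f a = f c → f a < f b

/-- all of them -/
noncomputable def Q : ℕ → Finset (ℕ → ℕ)
  | 0 => {fun _ => 0}
  | n + 1 => (Q n ×ˢ range (2 * n + 1)).image fun p => ins (n + 1) p.2 p.1

lemma st_le {n : ℕ} {w : ℕ → ℕ} (h : St n w) (i : ℕ) : w i ≤ n := by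
  rcases Nat.lt_or_ge i (2 * n) with h1 | h1
  · exact (h.2.1 i h1).2
  · rw [h.1 i h1]; exact Nat.zero_le _

lemma ins_lt {m g : ℕ} {w : ℕ → ℕ} {i : ℕ} (h : i < g) : ins m g w i = w i := by
  unfold ins; rw [if_pos h]

lemma ins_mid {m g : ℕ} {w : ℕ → ℕ} {i : ℕ} (h : g ≤ i) (h' : i < g + 2) : ins m g w i = m := by
  unfold ins; rw [if_neg (by omega), if_pos h']

lemma ins_ge {m g : ℕ} {w : ℕ → ℕ} {i : ℕ} (h : g + 2 ≤ i) : ins m g w i = w (i - 2) := by
  unfold ins; rw [if_neg (by omega), if_neg (by omega)]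

lemma ins_add {m g : ℕ} {w : ℕ → ℕ} {i : ℕ} (h : g ≤ i) : ins m g w (i + 2) = w i := by
  rw [ins_ge (by omega), Nat.add_sub_cancel]

lemma st_ins {n : ℕ} {w : ℕ → ℕ} (h : St n w) {g : ℕ} (hg : g < 2 * n + 1) :
    St (n + 1) (ins (n + 1) g w) := by
  have hle := st_le h
  obtain ⟨h1, h2, h3, h4⟩ := h
  refine ⟨?_, ?_, ?_, ?_⟩
  · intro i hi
    rw [ins_ge (by omega), h1 _ (by omega)]
  · intro i hi
    rcases Nat.lt_or_ge i g with h5 | h5
    · rw [ins_lt h5]
      have := h2 i (by omega)
      omega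
    · rcases Nat.lt_or_ge i (g + 2) with h6 | h6
      · rw [ins_mid h5 h6]; omega
      · rw [ins_ge h6]
        have := h2 (i - 2) (by omega)
        omega
  · intro v hv1 hv2
    rcases Nat.lt_or_ge n v with h5 | h5
    · refine ⟨g, g + 1, by omega, ?_, ?_, ?_⟩
      · rw [ins_mid le_rfl (by omega)]; omega
      · rw [ins_mid (by omega) (by omega)]; omega
      · intro i hi
        by_contra hcon
        rcases Nat.lt_or_ge i g with h6 | h6
        · rw [ins_lt h6] at hi
          have := hle i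
          omega
        · rw [ins_ge (by omega)] at hi
          have := hle (i - 2)
          omega
    · obtain ⟨a, b, hab, ha, hb, hu⟩ := h3 v hv1 h5
      have e : ∀ x, w x = v → ∃ y, ins (n + 1) g w y = v ∧ y = if x < g then x else x + 2 := by
        intro x hx
        refine ⟨if x < g then x else x + 2, ?_, rfl⟩
        split_ifs with h6
        · rw [ins_lt h6, hx]
        · rw [ins_add (by omega), hx]
      obtain ⟨a', ha1, ha2⟩ := e a ha
      obtain ⟨b', hb1, hb2⟩ := e b hb
      refine ⟨a', b', ?_, ha1, hb1, ?_⟩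
      · rw [ha2, hb2]; split_ifs <;> omega
      · intro i hi
        rcases Nat.lt_or_ge i g with h6 | h6
        · rw [ins_lt h6] at hi
          rw [ha2, hb2]
          rcases hu i hi with h7 | h7 <;> subst h7 <;> simp [h6]
        · rcases Nat.lt_or_ge i (g + 2) with h7 | h7
          · rw [ins_mid h6 h7] at hi; omega
          · rw [ins_ge h7] at hi
            rw [ha2, hb2]
            rcases hu _ hi with h8 | h8
            · left; rw [← h8, if_neg (by omega)]; omega
            · right; rw [← h8, if_neg (by omega)]; omega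
  · intro a b c hab hbc hc hac
    have key : ∀ x, (x < g ∧ ins (n + 1) g w x = w x) ∨
        ((g ≤ x ∧ x < g + 2) ∧ ins (n + 1) g w x = n + 1) ∨
        (g + 2 ≤ x ∧ ins (n + 1) g w x = w (x - 2)) := by
      intro x
      rcases Nat.lt_or_ge x g with h6 | h6
      · exact Or.inl ⟨h6, ins_lt h6⟩
      · rcases Nat.lt_or_ge x (g + 2) with h7 | h7
        · exact Or.inr (Or.inl ⟨⟨h6, h7⟩, ins_mid h6 h7⟩)
        · exact Or.inr (Or.inr ⟨h7, ins_ge h7⟩)
    rcases key a with ⟨a1, a2⟩ | ⟨a1, a2⟩ | ⟨a1, a2⟩ <;>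
      rcases key b with ⟨b1, b2⟩ | ⟨b1, b2⟩ | ⟨b1, b2⟩ <;>
      rcases key c with ⟨c1, c2⟩ | ⟨c1, c2⟩ | ⟨c1, c2⟩ <;>
      rw [a2, c2] at hac <;> rw [a2, b2] <;>
      first
        | omega
        | (have := hle a; omega)
        | (have := hle c; omega)
        | (have := hle (a - 2); omega)
        | (have := hle (c - 2); omega)
        | exact h4 a b c hab hbc (by omega) hac
        | exact h4 a b (c - 2) hab (by omega) (by omega) hac
        | exact h4 a (b - 2) (c - 2) (by omega) (by omega) (by omega) hac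
        | exact h4 (a - 2) (b - 2) (c - 2) (by omega) (by omega) (by omega) hac

lemma st_remove {n : ℕ} {f : ℕ → ℕ} (h : St (n + 1) f) :
    ∃ g, g < 2 * n + 1 ∧ ∃ w, St n w ∧ f = ins (n + 1) g w := by
  have hle := st_le h
  obtain ⟨h1, h2, h3, h4⟩ := h
  obtain ⟨g, b, hgb, hg, hb, hu⟩ := h3 (n + 1) (by omega) le_rfl
  have hb2 : b < 2 * (n + 1) := by
    by_contra hcon
    rw [h1 b (by omega)] at hb
    omega
  have hb1 : b = g + 1 := by
    by_contra hcon
    have := h4 g (g + 1) b (by omega) (by omega) hb2 (by rw [hg, hb])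
    have := hle (g + 1)
    omega
  subst hb1
  have hf : f = ins (n + 1) g (fun i => if i < g then f i else f (i + 2)) := by
    funext i
    rcases Nat.lt_or_ge i g with h6 | h6
    · rw [ins_lt h6, if_pos h6]
    · rcases Nat.lt_or_ge i (g + 2) with h7 | h7
      · rw [ins_mid h6 h7]
        rcases (by omega : i = g ∨ i = g + 1) with h8 | h8 <;> rw [h8]
        · exact hg
        · exact hb
      · rw [ins_ge h7, if_neg (by omega), Nat.sub_add_cancel (by omega)]
  refine ⟨g, by omega, _, ⟨?_, ?_, ?_, ?_⟩, hf⟩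
  · intro i hi
    rw [if_neg (by omega), h1 _ (by omega)]
  · intro i hi
    have hne : ∀ x, x ≠ g → x ≠ g + 1 → x < 2 * (n + 1) → 1 ≤ f x ∧ f x ≤ n := by
      intro x hx1 hx2 hx3
      have h5 := h2 x hx3
      have h6 : f x ≠ n + 1 := fun h => by rcases hu x h with h | h <;> omega
      omega
    split_ifs with h5
    · exact hne i (by omega) (by omega) (by omega)
    · exact hne (i + 2) (by omega) (by omega) (by omega)
  · intro v hv1 hv2
    obtain ⟨a, b, hab, ha, hb', hu'⟩ := h3 v hv1 (by omega)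
    have hnot : ∀ x, f x = v → x ≠ g ∧ x ≠ g + 1 := by
      intro x hx
      constructor
      · rintro rfl; omega
      · rintro rfl; omega
    have e : ∀ x, f x = v → (if (if x < g then x else x - 2) < g then
        f (if x < g then x else x - 2) else f ((if x < g then x else x - 2) + 2)) = v := by
      intro x hx
      have := hnot x hx
      by_cases h5 : x < g
      · rw [if_pos h5, if_pos h5, hx]
      · rw [if_neg h5, if_neg (by omega), Nat.sub_add_cancel (by omega), hx]
    have na := hnot a ha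
    have nb := hnot b hb'
    refine ⟨if a < g then a else a - 2, if b < g then b else b - 2, ?_, e a ha, e b hb', ?_⟩
    · split_ifs <;> omega
    · intro i hi
      split_ifs at hi with h5
      · rcases hu' i hi with h6 | h6
        · left; rw [← h6, if_pos h5]
        · right; rw [← h6, if_pos h5]
      · rcases hu' _ hi with h6 | h6
        · left; rw [← h6, if_neg (by omega)]; omega
        · right; rw [← h6, if_neg (by omega)]; omega
  · intro a b c hab hbc hc hac
    by_cases ha : a < g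
    · by_cases hb' : b < g
      · by_cases hc' : c < g
        · rw [if_pos ha, if_pos hc'] at hac
          rw [if_pos ha, if_pos hb']
          exact h4 a b c hab hbc (by omega) hac
        · rw [if_pos ha, if_neg hc'] at hac
          rw [if_pos ha, if_pos hb']
          exact h4 a b (c + 2) hab (by omega) (by omega) hac
      · rw [if_pos ha, if_neg (by omega)] at hac
        rw [if_pos ha, if_neg hb']
        exact h4 a (b + 2) (c + 2) (by omega) (by omega) (by omega) hac
    · rw [if_neg ha, if_neg (by omega)] at hac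
      rw [if_neg ha, if_neg (by omega)]
      exact h4 (a + 2) (b + 2) (c + 2) (by omega) (by omega) (by omega) hac

lemma mem_Q (n : ℕ) (f : ℕ → ℕ) : f ∈ Q n ↔ St n f := by
  induction n generalizing f with
  | zero =>
    rw [Q, mem_singleton]
    constructor
    · rintro rfl
      exact ⟨fun i _ => rfl, fun i hi => by omega, fun v h1 h2 => by omega,
        fun a b c _ _ h => by omega⟩
    · intro h
      funext i
      exact h.1 i (by omega)
  | succ n ih =>
    rw [Q, mem_image]
    constructor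
    · rintro ⟨⟨w, g⟩, hp, rfl⟩
      rw [mem_product, mem_range] at hp
      exact st_ins ((ih w).1 hp.1) hp.2
    · intro h
      obtain ⟨g, hg, w, hw, rfl⟩ := st_remove h
      exact ⟨(w, g), by rw [mem_product, mem_range]; exact ⟨(ih w).2 hw, hg⟩, rfl⟩

lemma sum_Q (n : ℕ) (φ : (ℕ → ℕ) → ℕ) : ∑ f ∈ Q (n + 1), φ f =
    ∑ w ∈ Q n, ∑ g ∈ range (2 * n + 1), φ (ins (n + 1) g w) := by
  rw [Q, sum_image, sum_product]
  rintro ⟨w, g⟩ hp ⟨w', g'⟩ hp' h
  rw [mem_coe, mem_product] at hp hp'
  have hw := st_le ((mem_Q n w).1 hp.1)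
  have hw' := st_le ((mem_Q n w').1 hp'.1)
  dsimp only at h hw hw'
  have hg : g = g' := by
    rcases lt_trichotomy g g' with h1 | h1 | h1
    · have := congrFun h g
      rw [ins_mid le_rfl (by omega), ins_lt h1] at this
      have := hw' g
      omega
    · exact h1
    · have := congrFun h g'
      rw [ins_mid le_rfl (by omega), ins_lt h1] at this
      have := hw g'
      omega
  subst hg
  have hww : w = w' := by
    funext i
    rcases Nat.lt_or_ge i g with h6 | h6
    · have := congrFun h i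
      rwa [ins_lt h6, ins_lt h6] at this
    · have := congrFun h (i + 2)
      rwa [ins_add h6, ins_add h6] at this
  rw [hww]

/-! ### Runs and insertion -/

/-- the places of the first letters of the runs -/
noncomputable def Z (n : ℕ) (f : ℕ → ℕ) : Finset ℕ :=
  (range (2 * n)).filter fun i => i = 0 ∨ f i < f (i - 1)

/-- flattened words -/
def Flat (n : ℕ) (f : ℕ → ℕ) : Prop := ∀ i ∈ Z n f, ∀ j ∈ Z n f, i < j → f i ≤ f j

/-- the gaps (before the place `g`, not the first letter of a run) where a new run can start -/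
noncomputable def V (n : ℕ) (w : ℕ → ℕ) : Finset ℕ :=
  (range (2 * n)).filter fun g => 1 ≤ g ∧ g ∉ Z n w ∧
    (∀ i ∈ Z n w, i < g → w i ≤ w g) ∧ ∀ j ∈ Z n w, g < j → w g ≤ w j

/-- the gaps which keep the number of runs -/
noncomputable def K (n : ℕ) (w : ℕ → ℕ) : Finset ℕ := insert (2 * n) ((Z n w).erase 0)

lemma mem_Z {n : ℕ} {f : ℕ → ℕ} {i : ℕ} :
    i ∈ Z n f ↔ i < 2 * n ∧ (i = 0 ∨ f i < f (i - 1)) := by
  rw [Z, mem_filter, mem_range]

lemma mem_V {n : ℕ} {w : ℕ → ℕ} {g : ℕ} : g ∈ V n w ↔ g < 2 * n ∧ 1 ≤ g ∧ g ∉ Z n w ∧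
    (∀ i ∈ Z n w, i < g → w i ≤ w g) ∧ ∀ j ∈ Z n w, g < j → w g ≤ w j := by
  rw [V, mem_filter, mem_range]

lemma mem_K {n : ℕ} {w : ℕ → ℕ} {g : ℕ} (hn : 1 ≤ n) :
    g ∈ K n w ↔ g = 2 * n ∨ (1 ≤ g ∧ g ∈ Z n w) := by
  rw [K, mem_insert, mem_erase]
  constructor
  · rintro (h | ⟨h, h'⟩)
    · exact Or.inl h
    · exact Or.inr ⟨by omega, h'⟩
  · rintro (h | ⟨h, h'⟩)
    · exact Or.inl h
    · exact Or.inr ⟨by omega, h'⟩

/-- the new place of the letter at the place `i` -/
def sh (g i : ℕ) : ℕ := if i < g then i else i + 2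

lemma sh_inj (g : ℕ) : Function.Injective (sh g) := by
  intro a b h
  unfold sh at h
  split_ifs at h <;> omega

lemma sh_lt {g a b : ℕ} : sh g a < sh g b ↔ a < b := by
  unfold sh
  split_ifs <;> omega

lemma ins_sh {m g : ℕ} {w : ℕ → ℕ} (i : ℕ) : ins m g w (sh g i) = w i := by
  unfold sh
  split_ifs with h
  · exact ins_lt h
  · exact ins_add (by omega)

lemma Z_ins {n : ℕ} {w : ℕ → ℕ} (h : St n w) {g : ℕ} (hg1 : 1 ≤ g) (hg : g < 2 * n + 1) :
    Z (n + 1) (ins (n + 1) g w) =
      (if g < 2 * n then insert g (Z n w) else Z n w).image (sh g) := by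
  have hle := st_le h
  ext i
  rw [mem_Z, mem_image]
  constructor
  · rintro ⟨h1, h2⟩
    rcases Nat.lt_or_ge i g with h3 | h3
    · refine ⟨i, ?_, by unfold sh; rw [if_pos h3]⟩
      have h4 : i ∈ Z n w := by
        rw [mem_Z]
        refine ⟨by omega, ?_⟩
        rw [ins_lt h3, ins_lt (by omega)] at h2
        exact h2
      split_ifs
      · exact mem_insert_of_mem h4
      · exact h4
    · rcases Nat.lt_or_ge i (g + 2) with h4 | h4
      · exfalso
        rw [ins_mid h3 h4] at h2
        rcases h2 with h2 | h2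
        · omega
        · rcases (by omega : i = g ∨ i = g + 1) with h5 | h5
          · rw [ins_lt (by omega)] at h2
            have := hle (i - 1)
            omega
          · rw [ins_mid (by omega) (by omega)] at h2
            omega
      · refine ⟨i - 2, ?_, by unfold sh; rw [if_neg (by omega)]; omega⟩
        rw [if_pos (by omega)]
        by_cases h5 : i = g + 2
        · rw [mem_insert]; left; omega
        · refine mem_insert_of_mem ?_
          rw [mem_Z]
          refine ⟨by omega, Or.inr ?_⟩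
          rw [ins_ge h4, ins_ge (by omega)] at h2
          rcases h2 with h2 | h2
          · omega
          · rwa [show i - 1 - 2 = i - 2 - 1 by omega] at h2
  · rintro ⟨x, hx, rfl⟩
    have hx2 : x < 2 * n := by
      split_ifs at hx with h1
      · rcases mem_insert.1 hx with h2 | h2
        · omega
        · exact (mem_Z.1 h2).1
      · exact (mem_Z.1 hx).1
    have h0 : sh g x < 2 * (n + 1) := by unfold sh; split_ifs <;> omega
    refine ⟨h0, ?_⟩
    rw [ins_sh]
    by_cases hxg : x = g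
    · right
      have : sh g x - 1 = g + 1 := by unfold sh; rw [if_neg (by omega)]; omega
      rw [this, ins_mid (by omega) (by omega)]
      have := hle x
      omega
    · have hxZ : x ∈ Z n w := by
        split_ifs at hx with h1
        · rcases mem_insert.1 hx with h2 | h2
          · exact absurd h2 hxg
          · exact h2
        · exact hx
      rcases (mem_Z.1 hxZ).2 with h2 | h2
      · left; unfold sh; rw [if_pos (by omega)]; exact h2
      · by_cases hx0 : x = 0
        · left; unfold sh; rw [if_pos (by omega)]; exact hx0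
        · right
          have : sh g x - 1 = sh g (x - 1) := by
            unfold sh
            split_ifs <;> omega
          rw [this, ins_sh]
          exact h2

lemma zero_mem_Z {n : ℕ} (hn : 1 ≤ n) (f : ℕ → ℕ) : 0 ∈ Z n f := by
  rw [mem_Z]
  exact ⟨by omega, Or.inl rfl⟩

lemma not_flat_zero {n : ℕ} (hn : 1 ≤ n) {w : ℕ → ℕ} (h : St n w) :
    ¬ Flat (n + 1) (ins (n + 1) 0 w) := by
  intro hF
  have hle := st_le h 0
  have e0 : ins (n + 1) 0 w 0 = n + 1 := ins_mid le_rfl (by omega)
  have e1 : ins (n + 1) 0 w 1 = n + 1 := ins_mid (by omega) (by omega)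
  have e2 : ins (n + 1) 0 w 2 = w 0 := by rw [ins_ge (by omega)]
  have h2 : (2 : ℕ) ∈ Z (n + 1) (ins (n + 1) 0 w) := by
    rw [mem_Z]
    refine ⟨by omega, Or.inr ?_⟩
    show ins (n + 1) 0 w 2 < ins (n + 1) 0 w 1
    rw [e2, e1]
    omega
  have := hF 0 (zero_mem_Z (by omega) _) 2 h2 (by omega)
  omega

lemma flat_ins {n : ℕ} (hn : 1 ≤ n) {w : ℕ → ℕ} (h : St n w) {g : ℕ} (hg : g < 2 * n + 1) (r : ℕ) :
    (Flat (n + 1) (ins (n + 1) g w) ∧ (Z (n + 1) (ins (n + 1) g w)).card = r + 1) ↔
      Flat n w ∧ ((g ∈ V n w ∧ (Z n w).card = r) ∨ (g ∈ K n w ∧ (Z n w).card = r + 1)) := by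
  rcases Nat.eq_zero_or_pos g with h0 | h0
  · subst h0
    constructor
    · rintro ⟨h1, _⟩
      exact absurd h1 (not_flat_zero hn h)
    · rintro ⟨_, h1⟩
      rw [mem_V, mem_K hn] at h1
      omega
  have hZ := Z_ins h h0 hg
  have hcard : (Z (n + 1) (ins (n + 1) g w)).card =
      (if g < 2 * n then insert g (Z n w) else Z n w).card := by
    rw [hZ, card_image_of_injective _ (sh_inj g)]
  have hflat : Flat (n + 1) (ins (n + 1) g w) ↔
      ∀ i ∈ (if g < 2 * n then insert g (Z n w) else Z n w),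
        ∀ j ∈ (if g < 2 * n then insert g (Z n w) else Z n w), i < j → w i ≤ w j := by
    unfold Flat
    rw [hZ]
    simp only [mem_image, forall_exists_index, and_imp, forall_apply_eq_imp_iff₂, sh_lt, ins_sh]
  rw [hcard, hflat]
  by_cases hg2 : g < 2 * n
  · rw [if_pos hg2]
    by_cases hgZ : g ∈ Z n w
    · rw [insert_eq_of_mem hgZ]
      constructor
      · rintro ⟨h1, h2⟩
        exact ⟨h1, Or.inr ⟨(mem_K hn).2 (Or.inr ⟨h0, hgZ⟩), h2⟩⟩
      · rintro ⟨h1, h2 | h2⟩
        · exact absurd hgZ (mem_V.1 h2.1).2.2.1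
        · exact ⟨h1, h2.2⟩
    · rw [card_insert_of_notMem hgZ]
      constructor
      · rintro ⟨h1, h2⟩
        refine ⟨fun i hi j hj => h1 i (mem_insert_of_mem hi) j (mem_insert_of_mem hj),
          Or.inl ⟨mem_V.2 ⟨hg2, h0, hgZ, fun i hi hig => ?_, fun j hj hgj => ?_⟩, by omega⟩⟩
        · exact h1 i (mem_insert_of_mem hi) g (mem_insert_self _ _) hig
        · exact h1 g (mem_insert_self _ _) j (mem_insert_of_mem hj) hgj
      · rintro ⟨h1, h2 | h2⟩
        · obtain ⟨_, _, _, h3, h4⟩ := mem_V.1 h2.1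
          refine ⟨fun i hi j hj hij => ?_, by omega⟩
          rcases mem_insert.1 hi with h5 | h5 <;> rcases mem_insert.1 hj with h6 | h6
          · omega
          · rw [h5]; exact h4 j h6 (by omega)
          · rw [h6]; exact h3 i h5 (by omega)
          · exact h1 i h5 j h6 hij
        · rcases (mem_K hn).1 h2.1 with h3 | h3
          · omega
          · exact absurd h3.2 hgZ
  · rw [if_neg hg2]
    constructor
    · rintro ⟨h1, h2⟩
      exact ⟨h1, Or.inr ⟨(mem_K hn).2 (Or.inl (by omega)), h2⟩⟩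
    · rintro ⟨h1, h2 | h2⟩
      · have := (mem_V.1 h2.1).1
        omega
      · exact ⟨h1, h2.2⟩

/-- the flattened words with `r` runs -/
noncomputable def F (r n : ℕ) : Finset (ℕ → ℕ) := (Q n).filter fun f => Flat n f ∧ (Z n f).card = r

lemma mem_F {r n : ℕ} {f : ℕ → ℕ} : f ∈ F r n ↔ St n f ∧ Flat n f ∧ (Z n f).card = r := by
  rw [F, mem_filter, mem_Q]

/-- the recursion for sums over the flattened words -/
lemma sum_F {n : ℕ} (hn : 1 ≤ n) (r : ℕ) (φ : (ℕ → ℕ) → ℕ) : ∑ f ∈ F (r + 1) (n + 1), φ f =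
    ∑ w ∈ F r n, ∑ g ∈ V n w, φ (ins (n + 1) g w) +
      ∑ w ∈ F (r + 1) n, ∑ g ∈ K n w, φ (ins (n + 1) g w) := by
  rw [F, sum_filter, sum_Q, F, sum_filter, F, sum_filter, ← sum_add_distrib]
  refine sum_congr rfl fun w hw => ?_
  have hw' := (mem_Q n w).1 hw
  have hV : V n w ⊆ range (2 * n + 1) := fun g hg => by
    have := (mem_V.1 hg).1
    rw [mem_range]; omega
  have hK : K n w ⊆ range (2 * n + 1) := fun g hg => by
    rw [mem_range]
    rcases (mem_K hn).1 hg with h | h
    · omega
    · have := (mem_Z.1 h.2).1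
      omega
  have e : ∀ g ∈ range (2 * n + 1), (if Flat (n + 1) (ins (n + 1) g w) ∧
      (Z (n + 1) (ins (n + 1) g w)).card = r + 1 then φ (ins (n + 1) g w) else 0) =
      if Flat n w ∧ ((g ∈ V n w ∧ (Z n w).card = r) ∨ (g ∈ K n w ∧ (Z n w).card = r + 1)) then
        φ (ins (n + 1) g w) else 0 := by
    intro g hg
    rw [mem_range] at hg
    simp only [flat_ins hn hw' hg r]
  rw [sum_congr rfl e]
  by_cases h1 : Flat n w
  · by_cases h2 : (Z n w).card = r
    · have h3 : (Z n w).card ≠ r + 1 := by omega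
      simp only [h1, h2, true_and, and_true, if_true]
      rw [if_neg (by omega), add_zero]
      have : ∀ g, (g ∈ V n w ∨ g ∈ K n w ∧ r = r + 1) ↔ g ∈ V n w := fun g => by
        constructor
        · rintro (h | h)
          · exact h
          · omega
        · exact Or.inl
      simp only [this]
      rw [← sum_filter, filter_mem_eq_inter, inter_eq_right.2 hV]
    · by_cases h3 : (Z n w).card = r + 1
      · simp only [h1, h3, true_and, and_true, if_true]
        rw [if_neg (by omega), zero_add]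
        have : ∀ g, (g ∈ V n w ∧ r + 1 = r ∨ g ∈ K n w) ↔ g ∈ K n w := fun g => by
          constructor
          · rintro (h | h)
            · omega
            · exact h
          · exact Or.inr
        simp only [this]
        rw [← sum_filter, filter_mem_eq_inter, inter_eq_right.2 hK]
      · simp only [h1, h2, h3, and_false, or_false, if_false, sum_const_zero, add_zero]
  · simp only [h1, false_and, if_false, sum_const_zero, add_zero]

/-! ### Words with one or two runs -/

lemma F_zero {n : ℕ} (hn : 1 ≤ n) : F 0 n = ∅ := by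
  rw [eq_empty_iff_forall_notMem]
  intro f hf
  have h1 := (mem_F.1 hf).2.2
  rw [card_eq_zero] at h1
  have := zero_mem_Z hn f
  rw [h1] at this
  simp at this

/-- between two run starts the word is weakly increasing -/
lemma mono_of {n : ℕ} {f : ℕ → ℕ} {a : ℕ} : ∀ {b : ℕ}, a ≤ b → b < 2 * n →
    (∀ i, a < i → i ≤ b → i ∉ Z n f) → f a ≤ f b := by
  intro b hab
  induction b, hab using Nat.le_induction with
  | base => intro _ _; exact le_rfl
  | succ b hab ih =>
    intro hb h
    have h1 := ih (by omega) (fun i h1 h2 => h i h1 (by omega))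
    have h2 := h (b + 1) (by omega) le_rfl
    rw [mem_Z] at h2
    have h3 : ¬ f (b + 1) < f b := fun h4 => h2 ⟨hb, Or.inr h4⟩
    omega

lemma Z_one {n : ℕ} (hn : 1 ≤ n) {w : ℕ → ℕ} (hw : w ∈ F 1 n) : Z n w = {0} := by
  obtain ⟨x, hx⟩ := card_eq_one.1 (mem_F.1 hw).2.2
  have := zero_mem_Z hn w
  rw [hx, mem_singleton] at this
  rw [hx, ← this]

lemma K_one {n : ℕ} (hn : 1 ≤ n) {w : ℕ → ℕ} (hw : w ∈ F 1 n) : K n w = {2 * n} := by
  rw [K, Z_one hn hw]
  simp

lemma mono_one {n : ℕ} (hn : 1 ≤ n) {w : ℕ → ℕ} (hw : w ∈ F 1 n) {a b : ℕ} (hab : a ≤ b)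
    (hb : b < 2 * n) : w a ≤ w b := by
  refine mono_of hab hb fun i h1 _ => ?_
  rw [Z_one hn hw, mem_singleton]
  omega

lemma V_one {n : ℕ} (hn : 1 ≤ n) {w : ℕ → ℕ} (hw : w ∈ F 1 n) : V n w = Ico 1 (2 * n) := by
  ext g
  rw [mem_V, Z_one hn hw, mem_Ico]
  simp only [mem_singleton]
  constructor
  · rintro ⟨h1, h2, _⟩
    exact ⟨h2, h1⟩
  · rintro ⟨h1, h2⟩
    exact ⟨h2, h1, by omega, fun i hi _ => by rw [hi]; exact mono_one hn hw (by omega) h2,
      fun j hj hgj => by omega⟩

lemma V_ins_one {n : ℕ} (hn : 1 ≤ n) {w : ℕ → ℕ} (hw : w ∈ F 1 n) {g : ℕ} (hg : g ∈ V n w) :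
    (V (n + 1) (ins (n + 1) g w)).card = 2 * n - 2 := by
  rw [V_one hn hw, mem_Ico] at hg
  have hSt := (mem_F.1 hw).1
  have hle := st_le hSt
  have hZ : Z (n + 1) (ins (n + 1) g w) = {0, g + 2} := by
    rw [Z_ins hSt hg.1 (by omega), if_pos hg.2, Z_one hn hw, image_insert, image_singleton]
    have e1 : sh g g = g + 2 := by unfold sh; rw [if_neg (by omega)]
    have e2 : sh g 0 = 0 := by unfold sh; rw [if_pos (by omega)]
    rw [e1, e2, pair_comm]
  have hV : V (n + 1) (ins (n + 1) g w) = Ico 1 g ∪ Ico (g + 3) (2 * n + 2) := by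
    ext h
    rw [mem_V, hZ, mem_union, mem_Ico, mem_Ico]
    simp only [mem_insert, mem_singleton]
    have e0 : ins (n + 1) g w 0 = w 0 := ins_lt (by omega)
    have e2 : ins (n + 1) g w (g + 2) = w g := ins_add le_rfl
    constructor
    · rintro ⟨h1, h2, h3, h4, h5⟩
      by_contra hcon
      have h6 : h = g ∨ h = g + 1 := by omega
      have h7 := h5 (g + 2) (Or.inr rfl) (by omega)
      rw [e2, ins_mid (by omega) (by omega)] at h7
      have := hle g
      omega
    · rintro (⟨h1, h2⟩ | ⟨h1, h2⟩)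
      · refine ⟨by omega, by omega, by omega, fun i hi hih => ?_, fun j hj hhj => ?_⟩
        · have : i = 0 := by omega
          rw [this, e0, ins_lt h2]
          exact mono_one hn hw (by omega) (by omega)
        · have : j = g + 2 := by omega
          rw [this, e2, ins_lt h2]
          exact mono_one hn hw (by omega) (by omega)
      · refine ⟨by omega, by omega, by omega, fun i hi hih => ?_, fun j hj hhj => by omega⟩
        rw [ins_ge (i := h) (by omega)]
        rcases hi with hi | hi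
        · rw [hi, e0]; exact mono_one hn hw (by omega) (by omega)
        · rw [hi, e2]; exact mono_one hn hw (by omega) (by omega)
  rw [hV, card_union_of_disjoint, Nat.card_Ico, Nat.card_Ico]
  · omega
  · rw [disjoint_left]
    intro x hx hx'
    rw [mem_Ico] at hx hx'
    omega

lemma V_ins_end {n : ℕ} (hn : 1 ≤ n) {w : ℕ → ℕ} (hSt : St n w) :
    (V (n + 1) (ins (n + 1) (2 * n) w)).card = (V n w).card + 2 := by
  have hle := st_le hSt
  have hZ : Z (n + 1) (ins (n + 1) (2 * n) w) = Z n w := by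
    rw [Z_ins hSt (by omega) (by omega), if_neg (by omega)]
    ext i
    rw [mem_image]
    constructor
    · rintro ⟨x, hx, rfl⟩
      have := (mem_Z.1 hx).1
      unfold sh
      rw [if_pos this]
      exact hx
    · intro hi
      refine ⟨i, hi, ?_⟩
      unfold sh
      rw [if_pos (mem_Z.1 hi).1]
  have hV : V (n + 1) (ins (n + 1) (2 * n) w) = V n w ∪ {2 * n, 2 * n + 1} := by
    ext h
    rw [mem_V, hZ, mem_union, mem_V]
    simp only [mem_insert, mem_singleton]
    constructor
    · rintro ⟨h1, h2, h3, h4, h5⟩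
      rcases Nat.lt_or_ge h (2 * n) with h6 | h6
      · refine Or.inl ⟨h6, h2, h3, fun i hi hih => ?_, fun j hj hhj => ?_⟩
        · have := h4 i hi hih
          rwa [ins_lt (by omega), ins_lt h6] at this
        · have := h5 j hj hhj
          rwa [ins_lt h6, ins_lt (mem_Z.1 hj).1] at this
      · right; omega
    · rintro (⟨h1, h2, h3, h4, h5⟩ | h1)
      · refine ⟨by omega, h2, h3, fun i hi hih => ?_, fun j hj hhj => ?_⟩
        · rw [ins_lt (by omega), ins_lt h1]
          exact h4 i hi hih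
        · rw [ins_lt h1, ins_lt (mem_Z.1 hj).1]
          exact h5 j hj hhj
      · refine ⟨by omega, by omega, fun h2 => ?_, fun i hi hih => ?_, fun j hj hhj => ?_⟩
        · have := (mem_Z.1 h2).1
          omega
        · rw [ins_mid (i := h) (by omega) (by omega), ins_lt (mem_Z.1 hi).1]
          have := hle i
          omega
        · have := (mem_Z.1 hj).1
          omega
  rw [hV, card_union_of_disjoint, card_pair (by omega)]
  rw [disjoint_left]
  intro x hx hx'
  have := (mem_V.1 hx).1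
  simp only [mem_insert, mem_singleton] at hx'
  omega

lemma V_ins_start {n : ℕ} {w : ℕ → ℕ} (hSt : St n w) {g : ℕ} (hg : g ∈ Z n w) (hg1 : 1 ≤ g) :
    (V (n + 1) (ins (n + 1) g w)).card = (V n w).card := by
  have hle := st_le hSt
  have hg2 := (mem_Z.1 hg).1
  have hZ : Z (n + 1) (ins (n + 1) g w) = (Z n w).image (sh g) := by
    rw [Z_ins hSt hg1 (by omega), if_pos hg2, insert_eq_of_mem hg]
  have hV : V (n + 1) (ins (n + 1) g w) = (V n w).image (sh g) := by
    ext h
    rw [mem_V, hZ]
    constructor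
    · rintro ⟨h1, h2, h3, h4, h5⟩
      have h6 : h ≠ g ∧ h ≠ g + 1 := by
        by_contra hcon
        have h7 := h5 (sh g g) (mem_image_of_mem _ hg) (by unfold sh; rw [if_neg (by omega)]; omega)
        rw [ins_sh, ins_mid (by omega) (by omega)] at h7
        have := hle g
        omega
      obtain ⟨x, rfl⟩ : ∃ x, sh g x = h := by
        refine ⟨if h < g then h else h - 2, ?_⟩
        unfold sh
        split_ifs <;> omega
      have hx : sh g x = if x < g then x else x + 2 := rfl
      refine mem_image.2 ⟨x, mem_V.2 ⟨by split_ifs at hx <;> omega, ?_, fun h7 => h3 (mem_image_of_mem _ h7),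
        fun i hi hix => ?_, fun j hj hxj => ?_⟩, rfl⟩
      · split_ifs at hx <;> omega
      · have := h4 _ (mem_image_of_mem _ hi) (sh_lt.2 hix)
        rwa [ins_sh, ins_sh] at this
      · have := h5 _ (mem_image_of_mem _ hj) (sh_lt.2 hxj)
        rwa [ins_sh, ins_sh] at this
    · intro hh
      obtain ⟨x, hx, rfl⟩ := mem_image.1 hh
      obtain ⟨h1, h2, h3, h4, h5⟩ := mem_V.1 hx
      have hx : sh g x = if x < g then x else x + 2 := rfl
      refine ⟨by split_ifs at hx <;> omega, by split_ifs at hx <;> omega, fun h6 => ?_,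
        fun i hi hix => ?_, fun j hj hxj => ?_⟩
      · obtain ⟨y, hy, hy2⟩ := mem_image.1 h6
        rw [sh_inj g hy2] at hy
        exact h3 hy
      · obtain ⟨y, hy, rfl⟩ := mem_image.1 hi
        rw [ins_sh, ins_sh]
        exact h4 y hy (sh_lt.1 hix)
      · obtain ⟨y, hy, rfl⟩ := mem_image.1 hj
        rw [ins_sh, ins_sh]
        exact h5 y hy (sh_lt.1 hxj)
  rw [hV, card_image_of_injective _ (sh_inj g)]

lemma K_card {n : ℕ} (hn : 1 ≤ n) {r : ℕ} {w : ℕ → ℕ} (hw : w ∈ F (r + 1) n) :
    (K n w).card = r + 1 := by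
  rw [K, card_insert_of_notMem, card_erase_of_mem (zero_mem_Z hn w), (mem_F.1 hw).2.2]
  · rfl
  · intro h
    have := (mem_Z.1 (mem_of_mem_erase h)).1
    omega

/-! ### The recursions -/

/-- the number of flattened words with `r` runs -/
noncomputable def T (r n : ℕ) : ℕ := (F r n).card

/-- the sum of the numbers of the gaps for new runs over the words with two runs -/
noncomputable def U (n : ℕ) : ℕ := ∑ w ∈ F 2 n, (V n w).card

lemma T_rec {n : ℕ} (hn : 1 ≤ n) (r : ℕ) :
    T (r + 1) (n + 1) = ∑ w ∈ F r n, (V n w).card + (r + 1) * T (r + 1) n := by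
  have h := sum_F hn r fun _ => 1
  simp only [sum_const, smul_eq_mul, mul_one] at h
  rw [T, h, sum_congr rfl fun w hw => K_card hn hw, sum_const, smul_eq_mul, T, mul_comm (r + 1)]

lemma T_one {n : ℕ} (hn : 1 ≤ n) : T 1 (n + 1) = T 1 n := by
  rw [T_rec hn 0, F_zero hn]
  simp

lemma T_two {n : ℕ} (hn : 1 ≤ n) : T 2 (n + 1) = (2 * n - 1) * T 1 n + 2 * T 2 n := by
  rw [T_rec hn 1, sum_congr rfl fun w hw => by rw [V_one hn hw, Nat.card_Ico], sum_const,
    smul_eq_mul, T, T, mul_comm]

lemma T_three {n : ℕ} (hn : 1 ≤ n) : T 3 (n + 1) = U n + 3 * T 3 n := T_rec hn 2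

lemma U_rec {n : ℕ} (hn : 1 ≤ n) :
    U (n + 1) = (2 * n - 1) * (2 * n - 2) * T 1 n + (2 * U n + 2 * T 2 n) := by
  rw [U, sum_F hn 1]
  congr 1
  · rw [sum_congr rfl fun w hw => ?_, sum_const, smul_eq_mul, T, mul_comm]
    rw [sum_congr rfl fun g hg => V_ins_one hn hw hg, sum_const, V_one hn hw, Nat.card_Ico,
      smul_eq_mul]
  · rw [U, T, mul_sum, mul_comm 2 (F 2 n).card, ← smul_eq_mul (F 2 n).card, ← sum_const,
      ← sum_add_distrib]
    refine sum_congr rfl fun w hw => ?_
    obtain ⟨hSt, _, hc⟩ := mem_F.1 hw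
    have hc2 : ((Z n w).erase 0).card = 1 := by
      rw [card_erase_of_mem (zero_mem_Z hn w), hc]
    obtain ⟨d, hd⟩ := card_eq_one.1 hc2
    have hd2 : d ∈ (Z n w).erase 0 := by rw [hd]; exact mem_singleton_self d
    have hdZ := mem_of_mem_erase hd2
    have hd0 := ne_of_mem_erase hd2
    have hdn := (mem_Z.1 hdZ).1
    rw [K, hd, sum_pair (by omega), V_ins_end hn hSt, V_ins_start hSt hdZ (by omega)]
    ring

lemma Q_one : Q 1 = {ins 1 0 fun _ => 0} := by
  rw [Q, Q]
  simp

lemma Z_base {f : ℕ → ℕ} (hf : f ∈ Q 1) : Z 1 f = {0} := by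
  rw [Q_one, mem_singleton] at hf
  subst hf
  ext i
  rw [mem_Z, mem_singleton]
  constructor
  · rintro ⟨h1, h2 | h2⟩
    · exact h2
    · by_contra hcon
      have : i = 1 := by omega
      subst this
      rw [ins_mid (by omega) (by omega), ins_mid (by omega) (by omega)] at h2
      omega
  · rintro rfl
    exact ⟨by omega, Or.inl rfl⟩

lemma F_base {r : ℕ} (hr : r ≠ 1) : F r 1 = ∅ := by
  rw [eq_empty_iff_forall_notMem]
  intro f hf
  obtain ⟨h1, _, h3⟩ := mem_F.1 hf
  rw [Z_base ((mem_Q 1 f).2 h1), card_singleton] at h3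
  omega

lemma T_base : T 1 1 = 1 := by
  have : F 1 1 = Q 1 := by
    ext f
    rw [mem_F, ← mem_Q]
    constructor
    · exact fun h => h.1
    · intro h
      refine ⟨h, ?_, by rw [Z_base h, card_singleton]⟩
      intro i hi j hj hij
      rw [Z_base h, mem_singleton] at hi hj
      omega
  rw [T, this, Q_one, card_singleton]

lemma closed (N : ℕ) : T 1 (N + 1) = 1 ∧ T 2 (N + 1) + (2 * N + 3) = 3 * 2 ^ N ∧
    U (N + 1) + (4 * N ^ 2 + 6 * N + 4) = (3 * N + 4) * 2 ^ N ∧
    2 * T 3 (N + 1) + (20 + 6 * N) * 2 ^ N = 9 * 3 ^ N + (4 * N ^ 2 + 10 * N + 11) := by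
  induction N with
  | zero =>
    refine ⟨T_base, ?_, ?_, ?_⟩
    · rw [T, F_base (by omega)]; rfl
    · rw [U, F_base (by omega)]; rfl
    · rw [T, F_base (by omega)]; rfl
  | succ N ih =>
    obtain ⟨h1, h2, h3, h4⟩ := ih
    have e1 := T_one (n := N + 1) (by omega)
    have e2 := T_two (n := N + 1) (by omega)
    have e3 := T_three (n := N + 1) (by omega)
    have e4 := U_rec (n := N + 1) (by omega)
    rw [h1] at e1 e2 e4
    rw [show 2 * (N + 1) - 1 = 2 * N + 1 by omega] at e2 e4
    rw [show 2 * (N + 1) - 2 = 2 * N by omega] at e4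
    refine ⟨e1, ?_, ?_, ?_⟩
    · rw [e2, pow_succ]
      linarith
    · rw [e4, pow_succ 2 N]
      nlinarith
    · rw [e3, pow_succ 2 N, pow_succ 3 N]
      nlinarith

/-! ### Binomial sums -/

lemma Icc_eq (a N : ℕ) : Icc a N = Ico a (N + 1) := by
  ext x
  rw [mem_Icc, mem_Ico]
  omega

/-- the inner sum -/
def D (M : ℕ) : ℕ := ∑ j ∈ Icc 2 M, M.choose j

lemma D_eq (M : ℕ) : D M + (M + 1) = 2 ^ M := by
  rw [D, Icc_eq, ← Nat.sum_range_choose M]
  rcases M with _ | m
  · simp
  · rw [sum_Ico_eq_sum_range, sum_range_succ', sum_range_succ', Nat.choose_zero_right]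
    have : ∀ i, (m + 1).choose (2 + i) = (m + 1).choose (i + 1 + 1) := fun i => by
      rw [show 2 + i = i + 1 + 1 by omega]
    simp only [this]
    rw [show m + 1 + 1 - 2 = m by omega]
    simp
    ring

lemma sum_two_pow (N : ℕ) : ∑ k ∈ range (N + 1), N.choose k * 2 ^ (N - k) = 3 ^ N := by
  have := add_pow 1 2 N
  rw [show (1 : ℕ) + 2 = 3 by norm_num] at this
  rw [this]
  refine sum_congr rfl fun k _ => ?_
  rw [one_pow]
  push_cast
  ring

lemma sum_two_pow' (N : ℕ) : ∑ k ∈ range (N + 1), N.choose k * 2 ^ k = 3 ^ N := by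
  have := add_pow 2 1 N
  rw [show (2 : ℕ) + 1 = 3 by norm_num] at this
  rw [this]
  refine sum_congr rfl fun k _ => ?_
  rw [one_pow]
  push_cast
  ring

lemma sum_linear (M : ℕ) :
    ∑ k ∈ range (M + 2), (M + 1).choose k * (M + 1 - k) = (M + 1) * 2 ^ M := by
  rw [← Nat.sum_range_choose M, mul_sum, sum_range_succ, Nat.sub_self, mul_zero, add_zero]
  refine sum_congr rfl fun k _ => ?_
  rw [mul_comm (M + 1), Nat.choose_mul_succ_eq]

lemma sum_G (M : ℕ) : ∑ k ∈ range (M + 2), (M + 1).choose k * D (M + 1 - k) +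
    (2 ^ (M + 1) + (M + 1) * 2 ^ M) = 3 ^ (M + 1) := by
  rw [← sum_two_pow (M + 1), ← sum_linear M, ← Nat.sum_range_choose (M + 1), ← sum_add_distrib,
    ← sum_add_distrib]
  refine sum_congr rfl fun k _ => ?_
  rw [← D_eq (M + 1 - k)]
  ring

/-- the first sum of the question -/
def sumA (N : ℕ) : ℕ := ∑ k ∈ Icc 1 N, N.choose k * ∑ j ∈ Icc 2 (N - k), (N - k).choose j

/-- the second sum of the question -/
def sumB (N : ℕ) : ℕ := ∑ k ∈ Icc 2 N, N.choose k * ∑ j ∈ Icc 2 (N - k), (N - k).choose j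

/-- the third sum of the question -/
def sumC (N : ℕ) : ℕ := ∑ k ∈ Icc 3 N, (2 ^ (k - 1) - 2) * N.choose k

lemma sumA_eq (M : ℕ) : sumA (M + 1) + D (M + 1) =
    ∑ k ∈ range (M + 2), (M + 1).choose k * D (M + 1 - k) := by
  rw [range_eq_Ico, sum_eq_sum_Ico_succ_bot (by omega), sumA, Icc_eq]
  simp only [Nat.choose_zero_right, one_mul, Nat.sub_zero, D]
  rw [add_comm]

lemma sumB_eq (M : ℕ) : sumB (M + 1) + (M + 1) * D M = sumA (M + 1) := by
  rw [sumA, Icc_eq 1, sum_eq_sum_Ico_succ_bot (by omega), sumB, Icc_eq 2 (M + 1)]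
  simp only [Nat.choose_one_right, Nat.add_sub_cancel, D]
  rw [add_comm]

lemma sumC_eq (N : ℕ) : 2 * sumC N + 4 * 2 ^ N = 3 ^ N + 3 + 2 * N := by
  rcases (by omega : N = 0 ∨ N = 1 ∨ N = 2 ∨ 3 ≤ N) with h | h | h | h
  · subst h; decide
  · subst h; decide
  · subst h; decide
  · obtain ⟨M, rfl⟩ : ∃ M, N = M + 3 := ⟨N - 3, by omega⟩
    have h1 := sum_two_pow' (M + 3)
    have h2 := Nat.sum_range_choose (M + 3)
    rw [sum_range_succ', sum_range_succ', sum_range_succ'] at h1 h2
    rw [← h1, ← h2, sumC, Icc_eq, sum_Ico_eq_sum_range]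
    rw [show M + 3 + 1 - 3 = M + 1 by omega]
    have h3 : ∀ i, 2 * ((2 ^ (3 + i - 1) - 2) * (M + 3).choose (3 + i)) +
        4 * (M + 3).choose (i + 1 + 1 + 1) = (M + 3).choose (i + 1 + 1 + 1) * 2 ^ (i + 1 + 1 + 1) := by
      intro i
      rw [show 3 + i - 1 = i + 2 by omega, show 3 + i = i + 3 by omega]
      have h5 : 1 ≤ 2 ^ i := Nat.one_le_two_pow
      have h6 : (2 : ℕ) ^ (i + 2) - 2 = 4 * 2 ^ i - 2 := by rw [pow_add]; ring_nf
      have h7 : (2 : ℕ) ^ (i + 1 + 1 + 1) = 8 * 2 ^ i := by ring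
      rw [h6, h7, show i + 1 + 1 + 1 = i + 3 by omega]
      obtain ⟨y, hy⟩ : ∃ y, 4 * 2 ^ i = y + 2 := ⟨4 * 2 ^ i - 2, by omega⟩
      rw [hy, Nat.add_sub_cancel, show 8 * 2 ^ i = 2 * (y + 2) by omega]
      ring
    have h4 : 2 * ∑ i ∈ range (M + 1), (2 ^ (3 + i - 1) - 2) * (M + 3).choose (3 + i) +
        4 * ∑ i ∈ range (M + 1), (M + 3).choose (i + 1 + 1 + 1) =
        ∑ i ∈ range (M + 1), (M + 3).choose (i + 1 + 1 + 1) * 2 ^ (i + 1 + 1 + 1) := by
      rw [mul_sum, mul_sum, ← sum_add_distrib]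
      exact sum_congr rfl fun i _ => h3 i
    rw [← h4]
    simp only [zero_add, Nat.choose_one_right, Nat.choose_zero_right, pow_zero, pow_one]
    ring

lemma T_three_eq (N : ℕ) : T 3 (N + 1) = 2 * sumA N + 2 * sumB N + sumC N := by
  have h1 := (closed N).2.2.2
  rcases N with _ | M
  · have : sumA 0 = 0 ∧ sumB 0 = 0 ∧ sumC 0 = 0 := by decide
    rw [this.1, this.2.1, this.2.2]
    simp only [pow_zero] at h1
    omega
  · have h2 := sumA_eq M
    have h3 := sumB_eq M
    have h4 := sumC_eq (M + 1)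
    have h5 := sum_G M
    have h6 := D_eq (M + 1)
    have h7 := D_eq M
    rw [← h2] at h5
    have h8 : (M + 1) * D M + (M + 1) * (M + 1) = (M + 1) * 2 ^ M := by rw [← h7]; ring
    rw [pow_succ] at h1 h4 h5 h6
    nlinarith

lemma sumB_pos {N : ℕ} (hN : 4 ≤ N) : 0 < sumB N := by
  rw [sumB]
  refine sum_pos' (fun _ _ => Nat.zero_le _) ⟨2, ?_, ?_⟩
  · rw [mem_Icc]; omega
  · refine Nat.mul_pos (Nat.choose_pos (by omega)) (sum_pos' (fun _ _ => Nat.zero_le _) ⟨2, ?_, ?_⟩)
    · rw [mem_Icc]; omega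
    · exact Nat.choose_pos (by omega)

lemma sumB_zero {N : ℕ} (hN : N ≤ 3) : sumB N = 0 := by
  interval_cases N <;> decide

/-! ### Words as functions on `Fin (2 n)` -/

/-- extension by zero -/
def ext (n : ℕ) (w : Fin (2 * n) → ℕ) : ℕ → ℕ := fun i => if h : i < 2 * n then w ⟨i, h⟩ else 0

lemma ext_val {n : ℕ} (w : Fin (2 * n) → ℕ) (i : Fin (2 * n)) : ext n w i = w i := by
  unfold ext
  rw [dif_pos i.2]

lemma ext_of_ge {n : ℕ} (w : Fin (2 * n) → ℕ) {i : ℕ} (h : 2 * n ≤ i) : ext n w i = 0 := by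
  unfold ext
  rw [dif_neg (by omega)]

lemma stirling_iff {n : ℕ} (w : Fin (2 * n) → ℕ) : IsStirling n w ↔ St n (ext n w) := by
  constructor
  · rintro ⟨h1, h2, h3⟩
    refine ⟨fun i hi => ext_of_ge w hi, fun i hi => ?_, fun v hv1 hv2 => ?_, ?_⟩
    · have := ext_val w ⟨i, hi⟩
      rw [show ext n w i = w ⟨i, hi⟩ from this]
      exact h1 _
    · obtain ⟨x, y, hxy, hs⟩ := card_eq_two.1 (h2 v hv1 hv2)
      have hx : w x = v := by
        have : x ∈ univ.filter fun i => w i = v := by rw [hs]; simp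
        exact (mem_filter.1 this).2
      have hy : w y = v := by
        have : y ∈ univ.filter fun i => w i = v := by rw [hs]; simp
        exact (mem_filter.1 this).2
      have hu : ∀ i, ext n w i = v → i = x.val ∨ i = y.val := by
        intro i hi
        rcases Nat.lt_or_ge i (2 * n) with h4 | h4
        · have h5 : w ⟨i, h4⟩ = v := by rw [← ext_val w]; exact hi
          have : (⟨i, h4⟩ : Fin (2 * n)) ∈ univ.filter fun i => w i = v :=
            mem_filter.2 ⟨mem_univ _, h5⟩
          rw [hs, mem_insert, mem_singleton] at this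
          rcases this with h | h
          · left; rw [← h]
          · right; rw [← h]
        · rw [ext_of_ge w h4] at hi
          omega
      rcases lt_or_gt_of_ne hxy with h4 | h4
      · exact ⟨x, y, h4, by rw [ext_val, hx], by rw [ext_val, hy], hu⟩
      · exact ⟨y, x, h4, by rw [ext_val, hy], by rw [ext_val, hx], fun i hi => (hu i hi).symm⟩
    · intro a b c hab hbc hc hac
      have ea := ext_val w ⟨a, by omega⟩
      have eb := ext_val w ⟨b, by omega⟩
      have ec := ext_val w ⟨c, hc⟩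
      dsimp only at ea eb ec
      rw [ea, ec] at hac
      rw [ea, eb]
      exact h3 _ _ _ (by exact hab) (by exact hbc) hac
  · rintro ⟨h1, h2, h3, h4⟩
    refine ⟨fun i => ?_, fun v hv1 hv2 => ?_, fun a b c hab hbc hac => ?_⟩
    · rw [← ext_val w]
      exact h2 i i.2
    · obtain ⟨a, b, hab, ha, hb, hu⟩ := h3 v hv1 hv2
      have hb2 : b < 2 * n := by
        by_contra hcon
        rw [h1 b (by omega)] at hb
        omega
      have e : (univ.filter fun i => w i = v) =
          {(⟨a, by omega⟩ : Fin (2 * n)), ⟨b, hb2⟩} := by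
        ext i
        rw [mem_filter, mem_insert, mem_singleton]
        constructor
        · rintro ⟨_, hi⟩
          rw [← ext_val w] at hi
          rcases hu _ hi with h | h
          · left; exact Fin.ext h
          · right; exact Fin.ext h
        · rintro (h | h)
          · refine ⟨mem_univ _, ?_⟩
            rw [← ext_val w, h]; exact ha
          · refine ⟨mem_univ _, ?_⟩
            rw [← ext_val w, h]; exact hb
      rw [e, card_pair]
      intro h
      have := congrArg Fin.val h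
      dsimp only at this
      omega
    · rw [← ext_val w a, ← ext_val w b]
      refine h4 a b c hab hbc c.2 ?_
      rw [ext_val, ext_val]
      exact hac

lemma runStart_iff {n : ℕ} (w : Fin (2 * n) → ℕ) (i : Fin (2 * n)) :
    RunStart w i ↔ i.val ∈ Z n (ext n w) := by
  rw [mem_Z]
  constructor
  · intro h
    refine ⟨i.2, ?_⟩
    rcases Nat.eq_zero_or_pos i.val with h0 | h0
    · exact Or.inl h0
    · right
      have h1 := h ⟨i.val - 1, by omega⟩ (by show i.val - 1 + 1 = i.val; omega)
      have h2 := ext_val w ⟨i.val - 1, by omega⟩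
      dsimp only at h2
      rw [ext_val, h2]
      exact h1
  · rintro ⟨_, h⟩ j hj
    rcases h with h | h
    · omega
    · rw [ext_val, show i.val - 1 = j.val by omega, ext_val] at h
      exact h

lemma flattened_iff {n : ℕ} (w : Fin (2 * n) → ℕ) : IsFlattened w ↔ Flat n (ext n w) := by
  constructor
  · intro h i hi j hj hij
    have hi2 := (mem_Z.1 hi).1
    have hj2 := (mem_Z.1 hj).1
    have e1 := ext_val w ⟨i, hi2⟩
    have e2 := ext_val w ⟨j, hj2⟩
    dsimp only at e1 e2
    rw [e1, e2]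
    exact h ⟨i, hi2⟩ ⟨j, hj2⟩ ((runStart_iff w _).2 hi) ((runStart_iff w _).2 hj) hij
  · intro h i j hi hj hij
    rw [← ext_val w i, ← ext_val w j]
    exact h i ((runStart_iff w i).1 hi) j ((runStart_iff w j).1 hj) hij

lemma runs_eq {n : ℕ} (w : Fin (2 * n) → ℕ) : Nat.card {i // RunStart w i} = (Z n (ext n w)).card := by
  rw [← Fintype.card_coe, ← Nat.card_eq_fintype_card]
  refine Nat.card_congr
    { toFun := fun i => ⟨i.1.val, (runStart_iff w i.1).1 i.2⟩
      invFun := fun i => ⟨⟨i.1, (mem_Z.1 i.2).1⟩, (runStart_iff w _).2 i.2⟩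
      left_inv := fun i => rfl
      right_inv := fun i => rfl }

/-- the words of the question and the finite sets of the proof -/
lemma flatThree_eq (n : ℕ) : flatThree n = T 3 n := by
  rw [flatThree, T, ← Fintype.card_coe, ← Nat.card_eq_fintype_card]
  refine Nat.card_congr
    { toFun := fun w => ⟨ext n w.1, mem_F.2 ⟨(stirling_iff w.1).1 w.2.1,
        (flattened_iff w.1).1 w.2.2.1, by rw [← runs_eq]; exact w.2.2.2⟩⟩
      invFun := fun f => ⟨fun i => f.1 i.val, ?_⟩
      left_inv := fun w => ?_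
      right_inv := fun f => ?_ }
  · have e : ext n (fun i : Fin (2 * n) => f.1 i.val) = f.1 := by
      funext i
      rcases Nat.lt_or_ge i (2 * n) with h | h
      · exact ext_val (fun i : Fin (2 * n) => f.1 i.val) ⟨i, h⟩
      · rw [ext_of_ge _ h, (mem_F.1 f.2).1.1 i h]
    obtain ⟨h1, h2, h3⟩ := mem_F.1 f.2
    refine ⟨(stirling_iff _).2 (by rw [e]; exact h1), (flattened_iff _).2 (by rw [e]; exact h2), ?_⟩
    rw [runs_eq, e]
    exact h3
  · apply Subtype.ext
    funext i
    exact ext_val w.1 i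
  · apply Subtype.ext
    funext i
    rcases Nat.lt_or_ge i (2 * n) with h | h
    · exact ext_val (fun i : Fin (2 * n) => f.1 i.val) ⟨i, h⟩
    · exact (ext_of_ge _ h).trans ((mem_F.1 f.2).1.1 i h).symm

/-- **The number of flattened Stirling permutations of order `n` with exactly three runs** is
`2 ∑_{k=1}^{n-1} C(n-1,k) ∑_{j=2}^{n-1-k} C(n-1-k,j) + 2 ∑_{k=2}^{n-1} C(n-1,k) ∑_{j=2}^{n-1-k} C(n-1-k,j)
+ ∑_{k=3}^{n-1} (2^{k-1} - 2) C(n-1,k)` for every `n ≥ 1` (and `2` times it is
`9 · 3^(n-1) + 4 (n-1)^2 + 10 (n-1) + 11 - (20 + 6 (n-1)) 2^(n-1)`). The formula of the question, without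
the factor `2` of the second sum, is true for `n ≤ 4` and false for every `n ≥ 5`. -/
theorem result :
    (∀ n, 1 ≤ n → flatThree n =
      2 * (∑ k ∈ Icc 1 (n - 1), (n - 1).choose k *
        ∑ j ∈ Icc 2 (n - 1 - k), (n - 1 - k).choose j) +
      2 * (∑ k ∈ Icc 2 (n - 1), (n - 1).choose k *
        ∑ j ∈ Icc 2 (n - 1 - k), (n - 1 - k).choose j) +
      ∑ k ∈ Icc 3 (n - 1), (2 ^ (k - 1) - 2) * (n - 1).choose k) ∧
    (∀ n, 1 ≤ n → 2 * flatThree n + (20 + 6 * (n - 1)) * 2 ^ (n - 1) =
      9 * 3 ^ (n - 1) + (4 * (n - 1) ^ 2 + 10 * (n - 1) + 11)) ∧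
    ∀ n, 1 ≤ n → (flatThree n =
      2 * (∑ k ∈ Icc 1 (n - 1), (n - 1).choose k *
        ∑ j ∈ Icc 2 (n - 1 - k), (n - 1 - k).choose j) +
      (∑ k ∈ Icc 2 (n - 1), (n - 1).choose k *
        ∑ j ∈ Icc 2 (n - 1 - k), (n - 1 - k).choose j) +
      ∑ k ∈ Icc 3 (n - 1), (2 ^ (k - 1) - 2) * (n - 1).choose k ↔ n ≤ 4) := by
  have key : ∀ n, 1 ≤ n → flatThree n = 2 * sumA (n - 1) + 2 * sumB (n - 1) + sumC (n - 1) := by
    intro n hn
    obtain ⟨N, rfl⟩ : ∃ N, n = N + 1 := ⟨n - 1, by omega⟩
    rw [flatThree_eq, Nat.add_sub_cancel]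
    exact T_three_eq N
  refine ⟨key, fun n hn => ?_, fun n hn => ?_⟩
  · obtain ⟨N, rfl⟩ : ∃ N, n = N + 1 := ⟨n - 1, by omega⟩
    rw [flatThree_eq, Nat.add_sub_cancel]
    exact (closed N).2.2.2
  · show flatThree n = 2 * sumA (n - 1) + sumB (n - 1) + sumC (n - 1) ↔ n ≤ 4
    rw [key n hn]
    constructor
    · intro h
      by_contra hcon
      have := sumB_pos (N := n - 1) (by omega)
      omega
    · intro h
      rw [sumB_zero (N := n - 1) (by omega)]

end Pool.Agent.Results.MP_793dac_co.ThreeRuns
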